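import Mathlib

set_option autoImplicit false

namespace Pool.Agent.P.MP_900c80_co

/-- tables of one level -/
structure Lv where
  N : ℕ
  dnT : ℕ
  nxT : ℕ
  shT : ℕ
  dmT : ℕ
  imT : ℕ
  ns : ℕ
  stT : ℕ

def get10 (t i : ℕ) : ℕ := Nat.land (Nat.shiftRight t (Nat.mul 10 i)) 1023
def tb (x i : ℕ) : Bool := Nat.beq (Nat.land (Nat.shiftRight x i) 1) 1
def bit (i : ℕ) : ℕ := Nat.shiftLeft 1 i
def frc (n : ℕ) (k : ℕ → Bool) : Bool :=
  Nat.rec (motive := fun _ => Bool) (k 0) (fun m _ => k (Nat.succ m)) n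
def frcN (n : ℕ) (k : ℕ → ℕ) : ℕ :=
  Nat.rec (motive := fun _ => ℕ) (k 0) (fun m _ => k (Nat.succ m)) n
def allLt (n : ℕ) (f : ℕ → Bool) : Bool :=
  Nat.rec (motive := fun _ => Bool) true (fun m ih => and (f m) ih) n
def orLt (n : ℕ) (f : ℕ → ℕ) : ℕ :=
  Nat.rec (motive := fun _ => ℕ) 0 (fun m ih => Nat.lor (f m) ih) n
def pickT : ℕ := 0x1114489c44dc42757845027715572780d5e54f455a80a1f7719035601427c55039d45e82d5401e458e26a4090a4d67e1ba71d6c411a2564da0561b281df1593303e057560a5ed820b8ee545fc07c8e45cc038c436a9c1029000a8d335e027e5be6ec367215f5b5424143968dda5699236c74059cb870882847d7806d15d624d174041b6818fc7597082c615f19760cc70bd453be0f5499d7f4f70810823ca74612d305233903c110656ad0f7082502da6404530ace03516a361dd80d807e8be6fcd16f15d0dd907247b581b45b99550d9b4192b0e90d690de76cbc56c7964d29370771d58705d89731ee87419224832898b1f84b785ce1b8cb161f058c944d61f5d54c0441b6de1881c8b3f43375c855c45e830a4188505f58d660b961080321490c04d518ac3c1e3840af54dd0678ea7f8703e0f308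4cd425ea2405a2a1e6465f24b93d3096549213394960f51d11537198b26b2214409b70d77099560314e69df640813151d30b01d38408355b95ada13661a7793281209604ed7ec8d2fc42700ff34a016f435579410e1d964473728871f06c585736d4fb5bc60658c65120e670f641ca64b1220ec64438246945237d697717f2f4d05718f1e9b36519a4a90c374bb1e1281d986621ed060826284a734ca7bc938794b06a17228322105d28c4f630b81fd48130ab788ae73ce91bcf2331e9165e57c53c592122551c4d8b18809a5d955535f5049d2070076e1a086531820ec230413fa000d140760722186b5c8fa17cc5834f52952118c23145685f8cf639b26650b2e927615ec204493249252a160c45c138b751caa2b4e83c5e87913b8451b2c099551f47440667d303ac407fd3f1c46a3e4c43d12008967339b1429267ac482461516cb62a4e779d3a468987cc054bc3f4f86930d1f599b049447850b53993925c040f868479af118b44e00319dae2cc026b40100000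
def pick (x : ℕ) : ℕ := get10 pickT (Nat.mod (Nat.xor x (Nat.land x (Nat.pred x))) 547)
def allBits (fuel : ℕ) (f : ℕ → Bool) : ℕ → Bool :=
  Nat.rec (motive := fun _ => ℕ → Bool) (fun x => Nat.beq x 0)
    (fun _ ih x => cond (Nat.beq x 0) true
      (frc (pick x) fun b => and (f b) (frc (Nat.xor x (bit b)) ih))) fuel
def mapBits (fuel : ℕ) (f : ℕ → ℕ) : ℕ → ℕ :=
  Nat.rec (motive := fun _ => ℕ → ℕ) (fun _ => 0)
    (fun _ ih x => cond (Nat.beq x 0) 0
      (frcN (pick x) fun b => cond (tb x b)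
        (Nat.lor (bit (f b)) (frcN (Nat.xor x (bit b)) ih)) 0)) fuel

def Lv.dn (T : Lv) (a : ℕ) : ℕ := get10 T.dnT a
def Lv.nx (T : Lv) (a : ℕ) : ℕ := get10 T.nxT a
def Lv.sh (T : Lv) (a g : ℕ) : ℕ := Nat.xor (get10 T.shT (Nat.add (Nat.mul a 32) g)) 1023
def Lv.dm (T : Lv) (a b : ℕ) : Bool := tb T.dmT (Nat.add (Nat.mul a T.N) b)
def Lv.row (T : Lv) (a : ℕ) : ℕ :=
  Nat.mod (Nat.shiftRight T.dmT (Nat.mul a T.N)) (Nat.pow 2 T.N)
def Lv.im (T : Lv) (a : ℕ) : Bool := tb T.imT a
def Lv.rc (T : Lv) (s : ℕ) : ℕ :=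
  Nat.mod (Nat.shiftRight T.stT (Nat.mul s (Nat.add T.N 44))) (Nat.pow 2 (Nat.add T.N 44))
def rR (x : ℕ) : ℕ := Nat.land x 1023
def rP (x : ℕ) : ℕ := Nat.land (Nat.shiftRight x 10) 1023
def rD (x : ℕ) : ℕ := Nat.land (Nat.shiftRight x 20) 4095
def rN (x : ℕ) : ℕ := Nat.land (Nat.shiftRight x 32) 4095
def rE (x : ℕ) : ℕ := Nat.shiftRight x 44

def shf (h : ℕ) (T : Lv) (a g : ℕ) : ℕ :=
  cond (Nat.ble g 1) a (cond (Nat.beq g h) (T.nx a) (T.sh a g))
def shO (h : ℕ) (T : Lv) (p a b : ℕ) : ℕ :=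
  frcN (shf h T p a) fun y => cond (Nat.blt y T.N) (shf h T y b) T.N
def dis (T : Lv) (a b : ℕ) : Bool := or (Nat.beq a 0) (or (Nat.beq b 0) (T.dm a b))
def nopt (h : ℕ) : ℕ := cond (Nat.beq h 30) 0 (Nat.div h 2)
def off (h : ℕ) : ℕ := cond (Nat.beq h 32) 1 0
def nxp (h d : ℕ) : ℕ := cond (Nat.beq (nopt h) 0) 0 (Nat.succ d)
def tgt (T : Lv) (r p A ptr : ℕ) : Bool :=
  or (Nat.beq r 1) (or (tb A 1) (and (Nat.blt 0 ptr) (and (Nat.ble ptr T.ns)
    (frc (T.rc (Nat.pred ptr)) fun x => and (Nat.beq (rR x) r) (and (Nat.beq (rP x) p)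
      (Nat.beq (Nat.land (rE x) A) (rE x)))))))

def chkS (h : ℕ) (T T' : Lv) : Bool :=
  allLt T.N fun a => frc (T.dn a) fun d => frc (T.nx a) fun n =>
    and (Nat.blt d T'.N) (and (Nat.blt n T.N) (allLt h fun g => or (Nat.ble g 1)
      (frc (T.sh a g) fun y => or (Nat.ble T.N y)
        (and (Nat.beq (T.dn y) (shf (Nat.pred h) T' d g)) (Nat.beq (T.nx y) (T.sh n g))))))

def chkB (h : ℕ) (T : Lv) : Bool :=
  and (Nat.blt 2 T.N) (and (Nat.beq (T.dn 0) 0) (and (Nat.beq (T.nx 0) 0) (and (Nat.beq (T.dn 1) 1)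
    (and (Nat.beq (T.nx 1) 1) (and (Nat.beq (T.dn 2) (cond (Nat.beq h 2) 1 2))
      (Nat.beq (T.nx 2) (cond (Nat.beq h 30) 2 0)))))))

def chkD (T T' : Lv) : Bool :=
  allLt T.N fun a => frc (T.dn a) fun d => frc (T.nx a) fun n =>
    frc (T.row a) (allBits 1024 fun b => and (dis T' d (T.dn b)) (dis T n (T.nx b)))

def chkI (h : ℕ) (T T' : Lv) : Bool :=
  allLt T.N fun r => or (not (T.im r)) (frc (T.dn r) fun d => frc (T.nx r) fun n =>
    frc (T.dn n) fun e => and (T'.im d) (and (T.im n) (allLt (nopt h) fun a =>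
      or (Nat.blt a (off h)) (frc (shO (Nat.pred h) T' d a (Nat.sub (Nat.sub h 2) a)) fun y =>
        and (Nat.blt y T'.N) (dis T' e y)))))

def optMask (h : ℕ) (T' : Lv) (p : ℕ) : ℕ :=
  orLt (nopt h) fun a => cond (Nat.blt a (off h)) 0
    (bit (shO (Nat.pred h) T' p a (Nat.sub (Nat.sub h 2) a)))

def chkC1 (h : ℕ) (T T' : Lv) (s : ℕ) : Bool :=
  frc (T.rc s) fun x => frc (rR x) fun r => frc (rP x) fun p => frc (rE x) fun E =>
    frc (T.dn r) fun d => and (Nat.blt r T.N) (and (Nat.ble p T'.N)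
      (and (frc (Nat.lor (mapBits 1024 T.dn E)
          (cond (Nat.beq p 0) 0 (optMask h T' (Nat.pred p)))) fun A => tgt T' d 0 A (rD x))
        (frc (mapBits 1024 T.nx E) fun A => tgt T (T.nx r) (nxp h d) A (rN x))))

def chkC (h : ℕ) (T T' : Lv) : Bool := allLt T.ns (chkC1 h T T')

theorem frc_eq (n : ℕ) (k : ℕ → Bool) : frc n k = k n := by cases n <;> rfl
theorem frcN_eq (n : ℕ) (k : ℕ → ℕ) : frcN n k = k n := by cases n <;> rfl

theorem allLt_iff (n : ℕ) (f : ℕ → Bool) : allLt n f = true ↔ ∀ i < n, f i = true := by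
  induction n with
  | zero => simp [allLt]
  | succ n ih =>
    have : allLt (n + 1) f = (f n && allLt n f) := rfl
    rw [this, Bool.and_eq_true, ih]
    constructor
    · rintro ⟨h1, h2⟩ i hi
      rcases Nat.lt_succ_iff_lt_or_eq.1 hi with h | rfl
      · exact h2 i h
      · exact h1
    · intro h
      exact ⟨h n (Nat.lt_succ_self n), fun i hi => h i (Nat.lt_succ_of_lt hi)⟩

theorem tb_eq (x i : ℕ) : tb x i = x.testBit i := by
  unfold tb Nat.testBit
  have : Nat.land (Nat.shiftRight x i) 1 = 1 &&& (x >>> i) := Nat.land_comm _ _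
  rw [this, Nat.one_and_eq_mod_two]
  rcases Nat.mod_two_eq_zero_or_one (x >>> i) with h | h <;> rw [h] <;> rfl

theorem bit_eq (i : ℕ) : bit i = 2 ^ i := by
  show 1 <<< i = _
  rw [Nat.shiftLeft_eq, one_mul]

theorem testBit_bit {i j : ℕ} (h : (bit i).testBit j = true) : i = j := by
  rw [bit_eq, Nat.testBit_two_pow] at h
  simpa using h

theorem orLt_bit (n : ℕ) (f : ℕ → ℕ) (j : ℕ) (h : (orLt n f).testBit j = true) :
    ∃ i < n, (f i).testBit j = true := by
  induction n with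
  | zero => simp [orLt] at h
  | succ n ih =>
    have : orLt (n + 1) f = (f n ||| orLt n f) := rfl
    rw [this, Nat.testBit_or, Bool.or_eq_true] at h
    rcases h with h | h
    · exact ⟨n, Nat.lt_succ_self n, h⟩
    · obtain ⟨i, hi, h⟩ := ih h
      exact ⟨i, Nat.lt_succ_of_lt hi, h⟩

theorem allBits_spec (fuel : ℕ) (f : ℕ → Bool) (x : ℕ) (h : allBits fuel f x = true) (b : ℕ)
    (hb : x.testBit b = true) : f b = true := by
  induction fuel generalizing x with
  | zero =>
    have : x = 0 := Nat.eq_of_beq_eq_true h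
    rw [this] at hb
    simp at hb
  | succ n ih =>
    have e : allBits (n + 1) f x = cond (Nat.beq x 0) true
      (frc (pick x) fun b => and (f b) (frc (Nat.xor x (bit b)) (allBits n f))) := rfl
    rw [e, frc_eq, frc_eq] at h
    cases hx : Nat.beq x 0 with
    | true =>
      have : x = 0 := Nat.eq_of_beq_eq_true hx
      rw [this] at hb
      simp at hb
    | false =>
      rw [hx, cond_false, Bool.and_eq_true] at h
      by_cases hl : pick x = b
      · rw [← hl]; exact h.1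
      · refine ih _ h.2 ?_
        show (x ^^^ bit (pick x)).testBit b = true
        rw [Nat.testBit_xor, hb, bit_eq, Nat.testBit_two_pow]
        simp [hl]

theorem mapBits_spec (fuel : ℕ) (f : ℕ → ℕ) (x : ℕ) (j : ℕ)
    (h : (mapBits fuel f x).testBit j = true) : ∃ b, x.testBit b = true ∧ f b = j := by
  induction fuel generalizing x with
  | zero => simp [mapBits] at h
  | succ n ih =>
    have e : mapBits (n + 1) f x = cond (Nat.beq x 0) 0
      (frcN (pick x) fun b => cond (tb x b)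
        (Nat.lor (bit (f b)) (frcN (Nat.xor x (bit b)) (mapBits n f))) 0) :=
      rfl
    rw [e, frcN_eq, frcN_eq] at h
    cases hx : Nat.beq x 0 with
    | true => rw [hx] at h; simp at h
    | false =>
      rw [hx, cond_false] at h
      cases ht : tb x (pick x) with
      | false => rw [ht] at h; simp at h
      | true =>
        rw [ht, cond_true] at h
        rw [tb_eq] at ht
        have h2 : (bit (f (pick x)) ||| mapBits n f (x ^^^ bit (pick x))).testBit j = true := h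
        rw [Nat.testBit_or, Bool.or_eq_true] at h2
        rcases h2 with h2 | h2
        · exact ⟨pick x, ht, testBit_bit h2⟩
        · obtain ⟨b, hb, hf⟩ := ih _ h2
          refine ⟨b, ?_, hf⟩
          rw [Nat.testBit_xor, bit_eq, Nat.testBit_two_pow] at hb
          by_cases hl : pick x = b
          · rw [← hl]; exact ht
          · simpa [hl] using hb

end Pool.Agent.P.MP_900c80_co
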