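import Mathlib

set_option autoImplicit false

namespace Pool.Agent.P.MP_900c80_co

/-- A move of Dawson's Kayles: take two tokens from a heap `m`, leaving the nonempty ones among
two heaps `a`, `b` with `a + b = m - 2`. -/
def Move (G H : Multiset ℕ) : Prop :=
  ∃ m ∈ G, ∃ a b : ℕ, a + b + 2 = m ∧ H = G.erase m + Multiset.filter (fun x => 0 < x) {a, b}

/-- Misere outcome: `NextWins G true` says that the player to move wins (an N-position),
`NextWins G false` says that the previous player wins (a P-position). -/
inductive NextWins : Multiset ℕ → Bool → Prop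
  | stuck (G : Multiset ℕ) : (∀ H, ¬ Move G H) → NextWins G true
  | win (G H : Multiset ℕ) : Move G H → NextWins H false → NextWins G true
  | lose (G : Multiset ℕ) : (∃ H, Move G H) → (∀ H, Move G H → NextWins H true) → NextWins G false

/-- Positions whose heaps are nonempty and have at most `n` tokens. -/
def Pos (n : ℕ) : Type := {G : Multiset ℕ // ∀ m ∈ G, 1 ≤ m ∧ m ≤ n}

/-- Misere indistinguishability inside `Pos n`. -/
def indist (n : ℕ) : Setoid (Pos n) where
  r H K := ∀ (X : Pos n) (o : Bool), NextWins (H.1 + X.1) o ↔ NextWins (K.1 + X.1) o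
  iseqv := ⟨fun _ _ _ => Iff.rfl, fun h X o => (h X o).symm, fun h h' X o => (h X o).trans (h' X o)⟩

end Pool.Agent.P.MP_900c80_co
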