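import Pool.Agent.P.MP_900c80_co.Top
import Pool.Agent.P.MP_900c80_co.Defs

set_option autoImplicit false

namespace Pool.Agent.P.MP_900c80_co

open Multiset

/-- the candidate set of P-positions -/
def PP (X : Multiset ℕ) : Prop := ev tab 31 (cls (X.count 30) (X.count 34) + 3) X

def Valid (X : Multiset ℕ) : Prop := ∀ m ∈ X, m ≤ 34 ∧ m ≠ 33

theorem PP_congr {X X' : Multiset ℕ} (h : ∀ g, 1 ≤ g → X.count g = X'.count g) :
    PP X ↔ PP X' := by
  unfold PP
  rw [h 30 (by omega), h 34 (by omega)]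
  exact ev_congr _ _ _ _ (fun g h1 _ => h g (by omega)) _

theorem count_move (Y : Multiset ℕ) (a b g : ℕ) (hg : 1 ≤ g) :
    (Y + Multiset.filter (fun x => 0 < x) {a, b}).count g = (a ::ₘ b ::ₘ Y).count g := by
  rw [count_add, count_filter_of_pos (show 0 < g by omega), insert_eq_cons, count_cons, count_cons,
    count_cons, count_singleton]
  omega

theorem move_form {G H : Multiset ℕ} (h : Move G H) : ∃ m a b Y, G = m ::ₘ Y ∧ a + b + 2 = m ∧
    a ≤ b ∧ ∀ g, 1 ≤ g → H.count g = (a ::ₘ b ::ₘ Y).count g := by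
  obtain ⟨m, hm, a, b, hab, rfl⟩ := h
  rcases le_total a b with h | h
  · exact ⟨m, a, b, G.erase m, (cons_erase hm).symm, hab, h, fun g hg => count_move _ _ _ _ hg⟩
  · refine ⟨m, b, a, G.erase m, (cons_erase hm).symm, by omega, h, fun g hg => ?_⟩
    rw [cons_swap]
    exact count_move _ _ _ _ hg

theorem exists_move (m a b : ℕ) (Y : Multiset ℕ) (h : a + b + 2 = m) :
    ∃ H, Move (m ::ₘ Y) H ∧ (PP H ↔ PP (a ::ₘ b ::ₘ Y)) := by
  refine ⟨Y + Multiset.filter (fun x => 0 < x) {a, b}, ⟨m, mem_cons_self _ _, a, b, h, ?_⟩,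
    PP_congr fun g hg => count_move _ _ _ _ hg⟩
  rw [erase_cons_head]

structure TopSpec (c0 : ℕ) (jp : Prop) (c1 : ℕ) (kp : Prop) (c2 c3 c4 : ℕ) : Prop where
  i0 : ∀ X, ev tab 31 (c0 + 3) (30 ::ₘ X) ↔ ev tab 31 (c0 + 3) X
  i1 : ∀ X, ev tab 31 (c1 + 3) (30 ::ₘ X) ↔ ev tab 31 (c1 + 3) X
  i4 : ∀ X, ev tab 31 (c4 + 3) (30 ::ₘ X) ↔ ev tab 31 (c4 + 3) X
  ind : ∀ g a Y, g ≤ 32 → IOpt g a → ev tab 31 (c0 + 3) (g ::ₘ Y) →
    ev tab 31 (c0 + 3) (a ::ₘ (g - 2 - a) ::ₘ Y) → False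
  d32 : ∀ Y, ev tab 31 (c0 + 3) (32 ::ₘ Y) → ev tab 31 (c4 + 3) Y → False
  dz : ¬ jp → ¬ kp → ∀ X, (∀ g, 2 ≤ g → X.count g = 0) → ¬ ev tab 31 (c0 + 3) X
  d30 : jp → ∀ a < 15, ∀ Y, ev tab 31 (c0 + 3) Y →
    ev tab 31 (c1 + 3) (a ::ₘ (28 - a) ::ₘ Y) → False
  d34 : kp → ∀ a < 17, ∀ Y, ev tab 31 (c0 + 3) Y →
    ev tab 31 ((if a = 2 then c3 else c2) + 3) (a ::ₘ (32 - a) ::ₘ Y) → False
  cov : ∀ X, ev tab 31 (c0 + 3) X ∨ InMove tab 31 (c0 + 3) X ∨
    (∃ Y, X = 32 ::ₘ Y ∧ ev tab 31 (c4 + 3) Y) ∨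
    (¬ jp ∧ ¬ kp ∧ ∀ g, 2 ≤ g → g ≤ 32 → g ≠ 30 → X.count g = 0) ∨
    (jp ∧ ∃ a < 15, ev tab 31 (c1 + 3) (a ::ₘ (28 - a) ::ₘ X)) ∨
    (kp ∧ ∃ a < 17, ev tab 31 ((if a = 2 then c3 else c2) + 3) (a ::ₘ (32 - a) ::ₘ X))

theorem topSpec_of (c0 : ℕ) (jp : Bool) (c1 : ℕ) (kp : Bool) (c2 c3 c4 : ℕ)
    (h : chkTop (tab 31) c0 jp c1 kp c2 c3 c4 = true) :
    TopSpec c0 (jp = true) c1 (kp = true) c2 c3 c4 := by
  simp only [chkTop, Bool.and_eq_true, Nat.blt_eq, Nat.beq_eq, frc_eq, Bool.or_eq_true,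
    allLt_iff, Bool.not_eq_true', and_assoc] at h
  obtain ⟨n0, n1, n2, n3, n4, nu, s0, s1, s4, u1, u2, hi, du, dz, d30, d34, hc⟩ := h
  have inv : ∀ c, c < (tab 31).N → shf 32 (tab 31) c 30 = c →
      ∀ X, ev tab 31 c (30 ::ₘ X) ↔ ev tab 31 c X := by
    intro c h1 h2 X
    have := ev_shf tabOK 31 le_rfl 30 (by omega) X c h1 (by rw [h2]; exact h1)
    rw [h2] at this
    exact this.symm
  have n23 : ∀ a, (if a = 2 then c3 else c2) + 3 < (tab 31).N := by
    intro a
    split_ifs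
    · exact n3
    · exact n2
  have hu : ∀ Y, ev tab 31 (un c4) (32 ::ₘ Y) ↔ ev tab 31 (c4 + 3) Y := by
    intro Y
    rw [← u2]
    exact ev_nx tab 30 _ Y
  have h2N : 2 < (tab 31).N := (tabOK.lv 30 (by omega)).sB.1
  refine ⟨inv _ n0 s0, inv _ n1 s1, inv _ n4 s4, ?_, ?_, ?_, ?_, ?_, ?_⟩
  · intro g a Y hg ho e1 e2
    exact ev_ind tabOK 31 le_rfl g a hg ho Y _ n0 hi e1 e2
  · intro Y e1 e2
    exact ev_dis tabOK 31 le_rfl _ _ _ n0 nu du e1 ((hu Y).2 e2)
  · intro hj hk X hX e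
    rcases dz with (h | h) | h
    · exact hj h
    · exact hk h
    · exact ev_dis tabOK 31 le_rfl _ _ _ n0 h2N h e (ev_z2 tabOK 30 le_rfl X hX)
  · intro hj a ha Y e1 e2
    rcases d30 with h | h
    · rw [hj] at h; exact absurd h (by simp)
    · obtain ⟨h1, h2⟩ := h a ha
      exact ev_dis tabOK 31 le_rfl _ _ _ n0 h1 h2 e1
        ((ev_shO tabOK 31 le_rfl _ _ _ (by omega) (by omega) n1 h1 Y).2 e2)
  · intro hk a ha Y e1 e2
    rcases d34 with h | h
    · rw [hk] at h; exact absurd h (by simp)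
    · obtain ⟨h1, h2⟩ := h a ha
      exact ev_dis tabOK 31 le_rfl _ _ _ n0 h1 h2 e1
        ((ev_shO tabOK 31 le_rfl _ _ _ (by omega) (by omega) (n23 a) h1 Y).2 e2)
  · intro X
    rw [← Bool.not_eq_true, allLt_iff] at hc
    push Not at hc
    obtain ⟨ptr, -, hp⟩ := hc
    simp only [ne_eq, Bool.not_eq_true', Bool.not_eq_false] at hp
    rcases tgt_cov tabOK 31 le_rfl (by omega) X (fun s hs => ev_cov tabOK rfl 31 le_rfl X s hs)
      _ _ _ _ hp with h | ⟨e, e1, e2, e3⟩ | h | h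
    · exact Or.inl h
    · have e4 : (bit (un c4) ||| (cond (jp || kp) 0 (bit 2) |||
          (cond jp (orLt 15 fun a => bit (ext30 (tab 31) c1 a)) 0 |||
            cond kp (orLt 17 fun a => bit (ext34 (tab 31) c2 c3 a)) 0))).testBit e = true := e2
      simp only [Nat.testBit_or, Bool.or_eq_true] at e4
      rcases e4 with e4 | e4 | e4 | e4
      · obtain rfl := testBit_bit e4
        by_cases h32 : X.count 32 = 0
        · rw [ev_dn tab 30 _ _ h32, u1] at e3
          exact absurd e3 (ev_false tabOK 30 (by omega) X)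
        · obtain ⟨Y, rfl⟩ := exists_cons_of_mem (count_pos.1 (Nat.pos_of_ne_zero h32))
          exact Or.inr (Or.inr (Or.inl ⟨Y, rfl, (hu Y).1 e3⟩))
      · cases jp <;> cases kp <;> simp only [Bool.or_false, Bool.or_true, cond_true, cond_false,
          Nat.zero_testBit, Bool.false_eq_true] at e4
        obtain rfl := testBit_bit e4
        exact Or.inr (Or.inr (Or.inr (Or.inl ⟨by simp, by simp,
          fun g g1 g2 g3 => ev_z1 tabOK 31 le_rfl X e3 g g1 g2 g3⟩)))
      · cases jp <;> simp only [cond_true, cond_false, Nat.zero_testBit, Bool.false_eq_true] at e4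
        obtain ⟨a, a1, a2⟩ := orLt_bit _ _ _ e4
        obtain rfl := testBit_bit a2
        exact Or.inr (Or.inr (Or.inr (Or.inr (Or.inl ⟨rfl, a, a1,
          (ev_shO tabOK 31 le_rfl _ _ _ (by omega) (by omega) n1 e1 X).1 e3⟩))))
      · cases kp <;> simp only [cond_true, cond_false, Nat.zero_testBit, Bool.false_eq_true] at e4
        obtain ⟨a, a1, a2⟩ := orLt_bit _ _ _ e4
        obtain rfl := testBit_bit a2
        exact Or.inr (Or.inr (Or.inr (Or.inr (Or.inr ⟨rfl, a, a1,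
          (ev_shO tabOK 31 le_rfl _ _ _ (by omega) (by omega) (n23 a) e1 X).1 e3⟩))))
    · exact Or.inr (Or.inl h)
    · exact absurd rfl h.1

theorem topSpec (j k : ℕ) : TopSpec (cls j k) (0 < j) (cls (j - 1) k) (0 < k) (cls j (k - 1))
    (cls (j + 1) (k - 1)) (cls (j + 1) k) := by
  have := topSpec_of _ _ _ _ _ _ _ (top_all j k)
  rwa [Nat.blt_eq, Nat.blt_eq] at this

theorem ign34 (c : ℕ) (X : Multiset ℕ) : ev tab 31 c (34 ::ₘ X) ↔ ev tab 31 c X :=
  ev_ignore _ _ _ _ _ (Or.inr (by omega))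

theorem ign0 (c : ℕ) (X : Multiset ℕ) : ev tab 31 c (0 ::ₘ X) ↔ ev tab 31 c X :=
  ev_ignore _ _ _ _ _ (Or.inl (by omega))

theorem iopt_iff (g a : ℕ) : IOpt g a ↔ g ≠ 30 ∧ 2 * a + 2 ≤ g ∧ ¬ (g = 32 ∧ a = 0) := by
  unfold IOpt off nopt
  by_cases h1 : g = 30
  · subst h1; simp
  by_cases h2 : g = 32
  · subst h2
    show 1 ≤ a ∧ a < 16 ↔ _
    omega
  rw [show Nat.beq g 30 = false by rw [← Bool.not_eq_true, Nat.beq_eq]; exact h1,
    show Nat.beq g 32 = false by rw [← Bool.not_eq_true, Nat.beq_eq]; exact h2]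
  show 0 ≤ a ∧ a < g / 2 ↔ _
  omega

theorem PP_int (g a : ℕ) (Y : Multiset ℕ) (hg : g ≤ 32) (ho : IOpt g a) :
    PP (a ::ₘ (g - 2 - a) ::ₘ Y) ↔ ev tab 31 (cls ((g ::ₘ Y).count 30) ((g ::ₘ Y).count 34) + 3)
      (a ::ₘ (g - 2 - a) ::ₘ Y) := by
  rw [iopt_iff] at ho
  unfold PP
  rw [count_cons_of_ne (by omega), count_cons_of_ne (by omega), count_cons_of_ne (by omega),
    count_cons_of_ne (by omega), count_cons_of_ne (by omega), count_cons_of_ne (by omega)]

theorem PP_32 (Y : Multiset ℕ) :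
    PP (0 ::ₘ 30 ::ₘ Y) ↔
      ev tab 31 (cls ((32 ::ₘ Y).count 30 + 1) ((32 ::ₘ Y).count 34) + 3) Y := by
  unfold PP
  rw [ign0, ← (topSpec ((32 ::ₘ Y).count 30) ((32 ::ₘ Y).count 34)).i4]
  simp

theorem PP_30 (a : ℕ) (ha : a < 15) (Y : Multiset ℕ) :
    PP (a ::ₘ (28 - a) ::ₘ Y) ↔
      ev tab 31 (cls ((30 ::ₘ Y).count 30 - 1) ((30 ::ₘ Y).count 34) + 3)
        (a ::ₘ (28 - a) ::ₘ Y) := by
  unfold PP
  rw [count_cons_self, count_cons_of_ne (by omega), count_cons_of_ne (by omega),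
    count_cons_of_ne (by omega), count_cons_of_ne (by omega), count_cons_of_ne (by omega),
    Nat.add_sub_cancel]

theorem PP_34 (a : ℕ) (ha : a < 17) (Y : Multiset ℕ) :
    PP (a ::ₘ (32 - a) ::ₘ Y) ↔
      ev tab 31 ((if a = 2 then cls ((34 ::ₘ Y).count 30 + 1) ((34 ::ₘ Y).count 34 - 1)
        else cls ((34 ::ₘ Y).count 30) ((34 ::ₘ Y).count 34 - 1)) + 3)
        (a ::ₘ (32 - a) ::ₘ Y) := by
  unfold PP
  split_ifs with h
  · subst h
    simp
  · rw [count_cons_self, count_cons_of_ne (by omega), count_cons_of_ne (by omega),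
      count_cons_of_ne (by omega), count_cons_of_ne (by omega), count_cons_of_ne (by omega),
      Nat.add_sub_cancel]

theorem claimA {G H : Multiset ℕ} (hv : Valid G) (hG : PP G) (hm : Move G H) : ¬ PP H := by
  obtain ⟨m, a, b, Y, rfl, hab, hle, hc⟩ := move_form hm
  rw [PP_congr hc]
  intro hH
  have S := topSpec ((m ::ₘ Y).count 30) ((m ::ₘ Y).count 34)
  have hm2 := hv m (mem_cons_self _ _)
  unfold PP at hG
  by_cases h34 : m = 34
  · subst h34
    obtain rfl : b = 32 - a := by omega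
    rw [PP_34 a (by omega)] at hH
    rw [ign34] at hG
    exact S.d34 (by simp) a (by omega) Y hG hH
  by_cases h30 : m = 30
  · subst h30
    obtain rfl : b = 28 - a := by omega
    rw [PP_30 a (by omega)] at hH
    rw [S.i0] at hG
    exact S.d30 (by simp) a (by omega) Y hG hH
  by_cases h32 : m = 32 ∧ a = 0
  · obtain ⟨rfl, rfl⟩ := h32
    obtain rfl : b = 30 := by omega
    rw [PP_32] at hH
    exact S.d32 Y hG hH
  have ho : IOpt m a := (iopt_iff m a).2 ⟨h30, by omega, h32⟩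
  obtain rfl : b = m - 2 - a := by omega
  rw [PP_int m a Y (by omega) ho] at hH
  exact S.ind m a Y (by omega) ho hG hH

theorem claimA0 {G : Multiset ℕ} (hG : PP G) : ∃ H, Move G H := by
  by_contra hc
  have h0 : ∀ g, 2 ≤ g → G.count g = 0 := by
    intro g hg
    by_contra h
    obtain ⟨Y, rfl⟩ := exists_cons_of_mem (count_pos.1 (Nat.pos_of_ne_zero h))
    obtain ⟨H, h1, -⟩ := exists_move g 0 (g - 2) Y (by omega)
    exact hc ⟨H, h1⟩
  exact (topSpec (G.count 30) (G.count 34)).dz (by rw [h0 30 (by omega)]; omega)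
    (by rw [h0 34 (by omega)]; omega) G h0 hG

theorem claimB {G : Multiset ℕ} (hv : Valid G) (hG : ¬ PP G) :
    (∀ H, ¬ Move G H) ∨ ∃ H, Move G H ∧ PP H := by
  have S := topSpec (G.count 30) (G.count 34)
  rcases S.cov G with h | ⟨g, a, Y, m1, m2, rfl, m4⟩ | ⟨Y, rfl, h⟩ | ⟨h1, h2, h3⟩ |
    ⟨h1, a, ha, h⟩ | ⟨h1, a, ha, h⟩
  · exact absurd h hG
  · have := m2.le
    obtain ⟨H, h1, h2⟩ := exists_move g a (g - 2 - a) Y (by omega)
    exact Or.inr ⟨H, h1, h2.2 ((PP_int g a Y m1 m2).2 m4)⟩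
  · obtain ⟨H, h1, h2⟩ := exists_move 32 0 30 Y (by omega)
    exact Or.inr ⟨H, h1, h2.2 ((PP_32 Y).2 h)⟩
  · left
    rintro H ⟨m, hm, a, b, hab, -⟩
    have := hv m hm
    have hp := count_pos.2 hm
    by_cases h30 : m = 30
    · subst h30; exact h1 hp
    by_cases h34 : m = 34
    · subst h34; exact h2 hp
    have := h3 m (by omega) (by omega) h30
    omega
  · obtain ⟨Y, rfl⟩ := exists_cons_of_mem (count_pos.1 h1)
    obtain ⟨H, h1, h2⟩ := exists_move 30 a (28 - a) Y (by omega)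
    refine Or.inr ⟨H, h1, h2.2 ((PP_30 a ha Y).2 ?_)⟩
    rw [cons_swap (28 - a), cons_swap a, S.i1] at h
    exact h
  · obtain ⟨Y, rfl⟩ := exists_cons_of_mem (count_pos.1 h1)
    obtain ⟨H, h1, h2⟩ := exists_move 34 a (32 - a) Y (by omega)
    refine Or.inr ⟨H, h1, h2.2 ((PP_34 a ha Y).2 ?_)⟩
    rw [cons_swap (32 - a), cons_swap a, ign34] at h
    exact h

theorem move_valid {G H : Multiset ℕ} (hv : Valid G) (hm : Move G H) :
    Valid H ∧ H.sum < G.sum := by
  obtain ⟨m, hm, a, b, hab, rfl⟩ := hm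
  obtain ⟨Y, rfl⟩ := exists_cons_of_mem hm
  rw [erase_cons_head]
  have := hv m hm
  constructor
  · intro x hx
    rcases mem_add.1 hx with h | h
    · exact hv x (mem_cons_of_mem h)
    · have := mem_of_mem_filter h
      simp only [insert_eq_cons, mem_cons, mem_singleton] at this
      omega
  · have h1 : (Multiset.filter (fun x => 0 < x) ({a, b} : Multiset ℕ)).sum ≤ a + b := by
      obtain ⟨Z, hZ⟩ := Multiset.le_iff_exists_add.1 (filter_le (fun x => 0 < x) ({a, b} : Multiset ℕ))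
      have := congrArg Multiset.sum hZ
      rw [sum_add, insert_eq_cons, sum_cons, sum_singleton] at this
      rw [insert_eq_cons]
      omega
    rw [sum_add, sum_cons]
    omega

theorem outcome (G : Multiset ℕ) (hv : Valid G) :
    (PP G → NextWins G false) ∧ (¬ PP G → NextWins G true) := by
  induction hn : G.sum using Nat.strong_induction_on generalizing G with
  | _ n ih =>
    constructor
    · intro hG
      refine NextWins.lose G (claimA0 hG) fun H hm => ?_
      obtain ⟨h1, h2⟩ := move_valid hv hm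
      exact (ih _ (by omega) H h1 rfl).2 (claimA hv hG hm)
    · intro hG
      rcases claimB hv hG with h | ⟨H, hm, hH⟩
      · exact NextWins.stuck G h
      · obtain ⟨h1, h2⟩ := move_valid hv hm
        exact NextWins.win G H hm ((ih _ (by omega) H h1 rfl).1 hH)

theorem nextWins_unique {G : Multiset ℕ} {o : Bool} (h : NextWins G o) : ¬ NextWins G (!o) := by
  induction h with
  | stuck G h =>
    intro h2
    cases h2 with
    | lose _ h3 _ => obtain ⟨H, h3⟩ := h3; exact h H h3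
  | win G H hm _ ih =>
    intro h2
    cases h2 with
    | lose _ _ h4 => exact ih (h4 H hm)
  | lose G h1 _ ih =>
    intro h2
    cases h2 with
    | stuck _ h3 => obtain ⟨H, h1⟩ := h1; exact h3 H h1
    | win _ H hm h4 => exact ih H hm h4

def evb (tab : ℕ → Lv) : ℕ → ℕ → Multiset ℕ → Bool
  | 0, a, _ => Nat.beq a 1
  | l + 1, a, X => evb tab l ((tab (l + 1)).dn ((tab (l + 1)).nx^[X.count (l + 2)] a)) X

theorem evb_iff (tab : ℕ → Lv) (l a : ℕ) (X : Multiset ℕ) : evb tab l a X = true ↔ ev tab l a X := by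
  induction l generalizing a with
  | zero => exact Nat.beq_eq ▸ Iff.rfl
  | succ l ih => exact ih _

theorem ev13 : evb tab 31 13 {25} = true := by decide +kernel
theorem ev15 : evb tab 31 15 {25} = false := by decide +kernel

theorem ev_rep (c : ℕ) (h : ∀ X, ev tab 31 c (30 ::ₘ X) ↔ ev tab 31 c X) (j k : ℕ) :
    ev tab 31 c (replicate k 34 + (replicate j 30 + {25})) ↔ ev tab 31 c {25} := by
  induction k with
  | zero =>
    rw [replicate_zero, zero_add]
    induction j with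
    | zero => rw [replicate_zero, zero_add]
    | succ j ih => rw [replicate_succ, cons_add, h, ih]
  | succ k ih => rw [replicate_succ, cons_add, ign34, ih]

theorem PP_rep (j k : ℕ) : PP (replicate k 34 + (replicate j 30 + {25})) ↔
    ev tab 31 (cls j k + 3) {25} := by
  unfold PP
  have e1 : (replicate k 34 + (replicate j 30 + {25}) : Multiset ℕ).count 30 = j := by
    simp [count_replicate]
  have e2 : (replicate k 34 + (replicate j 30 + {25}) : Multiset ℕ).count 34 = k := by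
    simp [count_replicate]
  rw [e1, e2]
  exact ev_rep _ (topSpec j k).i0 j k

theorem valid_rep (j k : ℕ) : Valid (replicate k 34 + (replicate j 30 + {25})) := by
  intro m hm
  simp only [mem_add, mem_replicate, mem_singleton] at hm
  omega

theorem separate (k k' : ℕ) (h : k < k') :
    NextWins (replicate (2 * k + 4) 34 + (replicate (2 * k + 4) 30 + {25})) false ∧
    ¬ NextWins (replicate (2 * k' + 4) 34 + (replicate (2 * k + 4) 30 + {25})) false := by
  have c1 : cls (2 * k + 4) (2 * k + 4) = 10 := by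
    unfold cls
    rw [if_neg (by omega), if_neg (by omega), if_neg (by omega), if_pos (by omega)]
    omega
  have c2 : cls (2 * k + 4) (2 * k' + 4) = 12 := by
    unfold cls
    rw [if_neg (by omega), if_neg (by omega), if_neg (by omega), if_neg (by omega),
      if_neg (by omega)]
    omega
  constructor
  · refine (outcome _ (valid_rep _ _)).1 ?_
    rw [PP_rep, c1, ← evb_iff]
    exact ev13
  · refine nextWins_unique (o := true) ((outcome _ (valid_rep _ _)).2 ?_)
    rw [PP_rep, c2, ← evb_iff, ev15]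
    simp

theorem infinite_quotient : Infinite (Quotient (indist 34)) := by
  let U : ℕ → Pos 34 := fun k => ⟨replicate (2 * k + 4) 34, by
    intro m hm
    rw [eq_of_mem_replicate hm]
    omega⟩
  let X : ℕ → Pos 34 := fun k => ⟨replicate (2 * k + 4) 30 + {25}, by
    intro m hm
    simp only [mem_add, mem_replicate, mem_singleton] at hm
    omega⟩
  refine Infinite.of_injective (fun k => Quotient.mk (indist 34) (U k)) ?_
  intro k k' h
  have h1 : ∀ (Z : Pos 34) (o : Bool), NextWins ((U k).1 + Z.1) o ↔ NextWins ((U k').1 + Z.1) o :=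
    Quotient.exact h
  rcases lt_trichotomy k k' with hk | hk | hk
  · exact absurd ((h1 (X k) false).1 (separate k k' hk).1) (separate k k' hk).2
  · exact hk
  · exact absurd ((h1 (X k') false).2 (separate k' k hk).1) (separate k' k hk).2

end Pool.Agent.P.MP_900c80_co
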