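import Pool.Agent.P.MP_900c80_co.Data0

set_option autoImplicit false

namespace Pool.Agent.P.MP_900c80_co

theorem okS2 : chkS 2 L2 L1 = true := by decide +kernel
theorem okB2 : chkB 2 L2 = true := by decide +kernel
theorem okD2 : chkD L2 L1 = true := by decide +kernel
theorem okI2 : chkI 2 L2 L1 = true := by decide +kernel
theorem okC2 : chkC 2 L2 L1 = true := by decide +kernel
theorem okS3 : chkS 3 L3 L2 = true := by decide +kernel
theorem okB3 : chkB 3 L3 = true := by decide +kernel
theorem okD3 : chkD L3 L2 = true := by decide +kernel
theorem okI3 : chkI 3 L3 L2 = true := by decide +kernel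
theorem okC3 : chkC 3 L3 L2 = true := by decide +kernel
theorem okS4 : chkS 4 L4 L3 = true := by decide +kernel
theorem okB4 : chkB 4 L4 = true := by decide +kernel
theorem okD4 : chkD L4 L3 = true := by decide +kernel
theorem okI4 : chkI 4 L4 L3 = true := by decide +kernel
theorem okC4 : chkC 4 L4 L3 = true := by decide +kernel
theorem okS5 : chkS 5 L5 L4 = true := by decide +kernel
theorem okB5 : chkB 5 L5 = true := by decide +kernel
theorem okD5 : chkD L5 L4 = true := by decide +kernel
theorem okI5 : chkI 5 L5 L4 = true := by decide +kernel
theorem okC5 : chkC 5 L5 L4 = true := by decide +kernel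
theorem okS6 : chkS 6 L6 L5 = true := by decide +kernel
theorem okB6 : chkB 6 L6 = true := by decide +kernel
theorem okD6 : chkD L6 L5 = true := by decide +kernel
theorem okI6 : chkI 6 L6 L5 = true := by decide +kernel
theorem okC6 : chkC 6 L6 L5 = true := by decide +kernel
theorem okS7 : chkS 7 L7 L6 = true := by decide +kernel
theorem okB7 : chkB 7 L7 = true := by decide +kernel
theorem okD7 : chkD L7 L6 = true := by decide +kernel
theorem okI7 : chkI 7 L7 L6 = true := by decide +kernel
theorem okC7 : chkC 7 L7 L6 = true := by decide +kernel
theorem okS8 : chkS 8 L8 L7 = true := by decide +kernel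
theorem okB8 : chkB 8 L8 = true := by decide +kernel
theorem okD8 : chkD L8 L7 = true := by decide +kernel
theorem okI8 : chkI 8 L8 L7 = true := by decide +kernel
theorem okC8 : chkC 8 L8 L7 = true := by decide +kernel
theorem okS9 : chkS 9 L9 L8 = true := by decide +kernel
theorem okB9 : chkB 9 L9 = true := by decide +kernel
theorem okD9 : chkD L9 L8 = true := by decide +kernel
theorem okI9 : chkI 9 L9 L8 = true := by decide +kernel
theorem okC9 : chkC 9 L9 L8 = true := by decide +kernel
theorem okS10 : chkS 10 L10 L9 = true := by decide +kernel
theorem okB10 : chkB 10 L10 = true := by decide +kernel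
theorem okD10 : chkD L10 L9 = true := by decide +kernel
theorem okI10 : chkI 10 L10 L9 = true := by decide +kernel
theorem okC10 : chkC 10 L10 L9 = true := by decide +kernel
theorem okS11 : chkS 11 L11 L10 = true := by decide +kernel
theorem okB11 : chkB 11 L11 = true := by decide +kernel
theorem okD11 : chkD L11 L10 = true := by decide +kernel
theorem okI11 : chkI 11 L11 L10 = true := by decide +kernel
theorem okC11 : chkC 11 L11 L10 = true := by decide +kernel
theorem okS12 : chkS 12 L12 L11 = true := by decide +kernel
theorem okB12 : chkB 12 L12 = true := by decide +kernel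
theorem okD12 : chkD L12 L11 = true := by decide +kernel
theorem okI12 : chkI 12 L12 L11 = true := by decide +kernel
theorem okC12 : chkC 12 L12 L11 = true := by decide +kernel
theorem okS13 : chkS 13 L13 L12 = true := by decide +kernel
theorem okB13 : chkB 13 L13 = true := by decide +kernel
theorem okD13 : chkD L13 L12 = true := by decide +kernel
theorem okI13 : chkI 13 L13 L12 = true := by decide +kernel
theorem okC13 : chkC 13 L13 L12 = true := by decide +kernel

end Pool.Agent.P.MP_900c80_co
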