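import Pool.Agent.P.MP_900c80_co.Data1
import Pool.Agent.P.MP_900c80_co.Data0

set_option autoImplicit false

namespace Pool.Agent.P.MP_900c80_co

theorem okS14 : chkS 14 L14 L13 = true := by decide +kernel
theorem okB14 : chkB 14 L14 = true := by decide +kernel
theorem okD14 : chkD L14 L13 = true := by decide +kernel
theorem okI14 : chkI 14 L14 L13 = true := by decide +kernel
theorem okC14 : chkC 14 L14 L13 = true := by decide +kernel
theorem okS15 : chkS 15 L15 L14 = true := by decide +kernel
theorem okB15 : chkB 15 L15 = true := by decide +kernel
theorem okD15 : chkD L15 L14 = true := by decide +kernel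
theorem okI15 : chkI 15 L15 L14 = true := by decide +kernel
theorem okC15 : chkC 15 L15 L14 = true := by decide +kernel

end Pool.Agent.P.MP_900c80_co
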