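import Pool.Agent.P.MP_900c80_co.Data2
import Pool.Agent.P.MP_900c80_co.Data1

set_option autoImplicit false

namespace Pool.Agent.P.MP_900c80_co

theorem okS16 : chkS 16 L16 L15 = true := by decide +kernel
theorem okB16 : chkB 16 L16 = true := by decide +kernel
theorem okD16 : chkD L16 L15 = true := by decide +kernel
theorem okI16 : chkI 16 L16 L15 = true := by decide +kernel
theorem okC16 : chkC 16 L16 L15 = true := by decide +kernel
theorem okS17 : chkS 17 L17 L16 = true := by decide +kernel
theorem okB17 : chkB 17 L17 = true := by decide +kernel
theorem okD17 : chkD L17 L16 = true := by decide +kernel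
theorem okI17 : chkI 17 L17 L16 = true := by decide +kernel
theorem okC17 : chkC 17 L17 L16 = true := by decide +kernel
theorem okS18 : chkS 18 L18 L17 = true := by decide +kernel
theorem okB18 : chkB 18 L18 = true := by decide +kernel
theorem okD18 : chkD L18 L17 = true := by decide +kernel
theorem okI18 : chkI 18 L18 L17 = true := by decide +kernel
theorem okC18 : chkC 18 L18 L17 = true := by decide +kernel

end Pool.Agent.P.MP_900c80_co
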