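import Pool.Agent.P.MP_900c80_co.Data3
import Pool.Agent.P.MP_900c80_co.Data2

set_option autoImplicit false

namespace Pool.Agent.P.MP_900c80_co

theorem okS19 : chkS 19 L19 L18 = true := by decide +kernel
theorem okB19 : chkB 19 L19 = true := by decide +kernel
theorem okD19 : chkD L19 L18 = true := by decide +kernel
theorem okI19 : chkI 19 L19 L18 = true := by decide +kernel
theorem okC19 : chkC 19 L19 L18 = true := by decide +kernel
theorem okS20 : chkS 20 L20 L19 = true := by decide +kernel
theorem okB20 : chkB 20 L20 = true := by decide +kernel
theorem okD20 : chkD L20 L19 = true := by decide +kernel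
theorem okI20 : chkI 20 L20 L19 = true := by decide +kernel
theorem okC20 : chkC 20 L20 L19 = true := by decide +kernel
theorem okS21 : chkS 21 L21 L20 = true := by decide +kernel
theorem okB21 : chkB 21 L21 = true := by decide +kernel
theorem okD21 : chkD L21 L20 = true := by decide +kernel
theorem okI21 : chkI 21 L21 L20 = true := by decide +kernel
theorem okC21 : chkC 21 L21 L20 = true := by decide +kernel

end Pool.Agent.P.MP_900c80_co
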