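import Pool.Agent.P.MP_900c80_co.Data4
import Pool.Agent.P.MP_900c80_co.Data3

set_option autoImplicit false

namespace Pool.Agent.P.MP_900c80_co

theorem okS22 : chkS 22 L22 L21 = true := by decide +kernel
theorem okB22 : chkB 22 L22 = true := by decide +kernel
theorem okD22 : chkD L22 L21 = true := by decide +kernel
theorem okI22 : chkI 22 L22 L21 = true := by decide +kernel
theorem okC22 : chkC 22 L22 L21 = true := by decide +kernel
theorem okS23 : chkS 23 L23 L22 = true := by decide +kernel
theorem okB23 : chkB 23 L23 = true := by decide +kernel
theorem okD23 : chkD L23 L22 = true := by decide +kernel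
theorem okI23 : chkI 23 L23 L22 = true := by decide +kernel
theorem okC23 : chkC 23 L23 L22 = true := by decide +kernel
theorem okS24 : chkS 24 L24 L23 = true := by decide +kernel
theorem okB24 : chkB 24 L24 = true := by decide +kernel
theorem okD24 : chkD L24 L23 = true := by decide +kernel
theorem okI24 : chkI 24 L24 L23 = true := by decide +kernel
theorem okC24 : chkC 24 L24 L23 = true := by decide +kernel

end Pool.Agent.P.MP_900c80_co
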