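import Pool.Agent.P.MP_900c80_co.Data5
import Pool.Agent.P.MP_900c80_co.Data4

set_option autoImplicit false

namespace Pool.Agent.P.MP_900c80_co

theorem okS25 : chkS 25 L25 L24 = true := by decide +kernel
theorem okB25 : chkB 25 L25 = true := by decide +kernel
theorem okD25 : chkD L25 L24 = true := by decide +kernel
theorem okI25 : chkI 25 L25 L24 = true := by decide +kernel
theorem okC25 : chkC 25 L25 L24 = true := by decide +kernel
theorem okS26 : chkS 26 L26 L25 = true := by decide +kernel
theorem okB26 : chkB 26 L26 = true := by decide +kernel
theorem okD26 : chkD L26 L25 = true := by decide +kernel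
theorem okI26 : chkI 26 L26 L25 = true := by decide +kernel
theorem okC26 : chkC 26 L26 L25 = true := by decide +kernel
theorem okS27 : chkS 27 L27 L26 = true := by decide +kernel
theorem okB27 : chkB 27 L27 = true := by decide +kernel
theorem okD27 : chkD L27 L26 = true := by decide +kernel
theorem okI27 : chkI 27 L27 L26 = true := by decide +kernel
theorem okC27 : chkC 27 L27 L26 = true := by decide +kernel

end Pool.Agent.P.MP_900c80_co
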