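import Pool.Agent.P.MP_900c80_co.Data6
import Pool.Agent.P.MP_900c80_co.Data5

set_option autoImplicit false

namespace Pool.Agent.P.MP_900c80_co

theorem okS28 : chkS 28 L28 L27 = true := by decide +kernel
theorem okB28 : chkB 28 L28 = true := by decide +kernel
theorem okD28 : chkD L28 L27 = true := by decide +kernel
theorem okI28 : chkI 28 L28 L27 = true := by decide +kernel
theorem okC28 : chkC 28 L28 L27 = true := by decide +kernel
theorem okS29 : chkS 29 L29 L28 = true := by decide +kernel
theorem okB29 : chkB 29 L29 = true := by decide +kernel
theorem okD29 : chkD L29 L28 = true := by decide +kernel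
theorem okI29 : chkI 29 L29 L28 = true := by decide +kernel
theorem okC29 : chkC 29 L29 L28 = true := by decide +kernel
theorem okS30 : chkS 30 L30 L29 = true := by decide +kernel
theorem okB30 : chkB 30 L30 = true := by decide +kernel
theorem okD30 : chkD L30 L29 = true := by decide +kernel
theorem okI30 : chkI 30 L30 L29 = true := by decide +kernel
theorem okC30 : chkC 30 L30 L29 = true := by decide +kernel
theorem okS31 : chkS 31 L31 L30 = true := by decide +kernel
theorem okB31 : chkB 31 L31 = true := by decide +kernel
theorem okD31 : chkD L31 L30 = true := by decide +kernel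
theorem okI31 : chkI 31 L31 L30 = true := by decide +kernel
theorem okC31 : chkC 31 L31 L30 = true := by decide +kernel
theorem okS32 : chkS 32 L32 L31 = true := by decide +kernel
theorem okB32 : chkB 32 L32 = true := by decide +kernel
theorem okD32 : chkD L32 L31 = true := by decide +kernel
theorem okI32 : chkI 32 L32 L31 = true := by decide +kernel
theorem okC32 : chkC 32 L32 L31 = true := by decide +kernel

end Pool.Agent.P.MP_900c80_co
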