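import Pool.Agent.P.MP_900c80_co.Check

set_option autoImplicit false

namespace Pool.Agent.P.MP_900c80_co

open Multiset

/-- language of a node -/
def ev (tab : ℕ → Lv) : ℕ → ℕ → Multiset ℕ → Prop
  | 0, a, _ => a = 1
  | l + 1, a, X => ev tab l ((tab (l + 1)).dn ((tab (l + 1)).nx^[X.count (l + 2)] a)) X

structure LvOK (h : ℕ) (T T' : Lv) : Prop where
  s : chkS h T T' = true
  b : chkB h T = true
  d : chkD T T' = true
  i : chkI h T T' = true
  c : chkC h T T' = true

structure TabOK (tab : ℕ → Lv) (M : ℕ) : Prop where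
  lv : ∀ l < M, LvOK (l + 2) (tab (l + 1)) (tab l)
  dm0 : (tab 0).dmT = 0
  ns0 : (tab 0).ns = 0

theorem ev_congr (tab : ℕ → Lv) (l : ℕ) (X X' : Multiset ℕ)
    (h : ∀ g, 2 ≤ g → g ≤ l + 1 → X.count g = X'.count g) (a : ℕ) :
    ev tab l a X ↔ ev tab l a X' := by
  induction l generalizing a with
  | zero => rfl
  | succ l ih =>
    unfold ev
    rw [h (l + 2) (by omega) (by omega)]
    exact ih (fun g h1 h2 => h g h1 (by omega)) _

theorem ev_ignore (tab : ℕ → Lv) (l a g : ℕ) (X : Multiset ℕ) (h : g ≤ 1 ∨ l + 2 ≤ g) :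
    ev tab l a (g ::ₘ X) ↔ ev tab l a X :=
  ev_congr tab l _ _ (fun k h1 h2 => count_cons_of_ne (by omega) _) a

theorem ev_nx (tab : ℕ → Lv) (l a : ℕ) (X : Multiset ℕ) :
    ev tab (l + 1) a ((l + 2) ::ₘ X) ↔ ev tab (l + 1) ((tab (l + 1)).nx a) X := by
  conv_lhs => unfold ev
  conv_rhs => unfold ev
  rw [count_cons_self, Function.iterate_succ_apply]
  exact ev_ignore tab l _ _ _ (Or.inr le_rfl)

theorem ev_dn (tab : ℕ → Lv) (l a : ℕ) (X : Multiset ℕ) (h : X.count (l + 2) = 0) :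
    ev tab (l + 1) a X ↔ ev tab l ((tab (l + 1)).dn a) X := by
  conv_lhs => unfold ev
  rw [h]
  rfl

theorem cnt_ind (h : ℕ) (P : Multiset ℕ → Prop) (h0 : ∀ X, X.count h = 0 → P X)
    (h1 : ∀ X, P X → P (h ::ₘ X)) (X : Multiset ℕ) : P X := by
  generalize hc : X.count h = c
  induction c generalizing X with
  | zero => exact h0 X hc
  | succ c ih =>
    have hm : h ∈ X := count_pos.1 (by omega)
    obtain ⟨Y, rfl⟩ := exists_cons_of_mem hm
    rw [count_cons_self] at hc
    exact h1 Y (ih Y (by omega))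

theorem LvOK.sS {h : ℕ} {T T' : Lv} (H : LvOK h T T') {a : ℕ} (ha : a < T.N) :
    T.dn a < T'.N ∧ T.nx a < T.N ∧ ∀ g, 2 ≤ g → g < h → T.sh a g < T.N →
      T.dn (T.sh a g) = shf (h - 1) T' (T.dn a) g ∧ T.nx (T.sh a g) = T.sh (T.nx a) g := by
  have := (allLt_iff _ _).1 H.s a ha
  simp only [frc_eq, Bool.and_eq_true, Nat.blt_eq, allLt_iff, Bool.or_eq_true, Nat.ble_eq,
    Nat.beq_eq] at this
  obtain ⟨h1, h2, h3⟩ := this
  refine ⟨h1, h2, fun g g1 g2 g3 => ?_⟩
  rcases h3 g g2 with h | h | h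
  · omega
  · omega
  · exact h

theorem shf_low (h : ℕ) (T : Lv) (a g : ℕ) (hg : g ≤ 1) : shf h T a g = a := by
  unfold shf
  rw [Nat.ble_eq_true_of_le hg, cond_true]

theorem shf_self (h : ℕ) (T : Lv) (a : ℕ) (hg : 2 ≤ h) : shf h T a h = T.nx a := by
  unfold shf
  have : Nat.ble h 1 = false := by
    rw [← Bool.not_eq_true, Nat.ble_eq]; omega
  rw [this, cond_false, Nat.beq_refl, cond_true]

theorem shf_mid (h : ℕ) (T : Lv) (a g : ℕ) (hg : 2 ≤ g) (hh : g ≠ h) : shf h T a g = T.sh a g := by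
  unfold shf
  have : Nat.ble g 1 = false := by
    rw [← Bool.not_eq_true, Nat.ble_eq]; omega
  have h2 : Nat.beq g h = false := by
    rw [← Bool.not_eq_true, Nat.beq_eq]; omega
  rw [this, cond_false, h2, cond_false]

variable {tab : ℕ → Lv} {M : ℕ}

theorem ev_shf (H : TabOK tab M) (l : ℕ) (hl : l ≤ M) (g : ℕ) (hg : g ≤ l + 1) (X : Multiset ℕ)
    (a : ℕ) (ha : a < (tab l).N) (hs : shf (l + 1) (tab l) a g < (tab l).N) :
    ev tab l (shf (l + 1) (tab l) a g) X ↔ ev tab l a (g ::ₘ X) := by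
  by_cases h1 : g ≤ 1
  · rw [shf_low _ _ _ _ h1, ev_ignore _ _ _ _ _ (Or.inl h1)]
  induction l generalizing X a with
  | zero => omega
  | succ l ih =>
    by_cases h2 : g = l + 2
    · subst h2
      rw [shf_self _ _ _ (by omega), ev_nx]
    have L := H.lv l (by omega)
    rw [shf_mid _ _ _ _ (by omega) h2] at hs ⊢
    induction X using cnt_ind (l + 2) generalizing a with
    | h0 X hX =>
      obtain ⟨s1, s2, s3⟩ := L.sS ha
      obtain ⟨s4, s5⟩ := s3 g (by omega) (by omega) hs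
      have s6 := (L.sS hs).1
      rw [ev_dn _ _ _ _ hX, ev_dn _ _ _ _ (by rw [count_cons_of_ne (by omega)]; exact hX), s4]
      rw [s4] at s6
      exact ih (by omega) (by omega) X _ s1 s6
    | h1 X ihX =>
      obtain ⟨s1, s2, s3⟩ := L.sS ha
      obtain ⟨s4, s5⟩ := s3 g (by omega) (by omega) hs
      have s6 := (L.sS hs).2.1
      rw [ev_nx, cons_swap, ev_nx, s5]
      rw [s5] at s6
      exact ihX _ s2 s6

theorem ev_shO (H : TabOK tab M) (l : ℕ) (hl : l ≤ M) (p a b : ℕ) (ha : a ≤ l + 1) (hb : b ≤ l + 1)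
    (hp : p < (tab l).N) (hs : shO (l + 1) (tab l) p a b < (tab l).N) (X : Multiset ℕ) :
    ev tab l (shO (l + 1) (tab l) p a b) X ↔ ev tab l p (a ::ₘ b ::ₘ X) := by
  unfold shO at hs ⊢
  rw [frcN_eq] at hs ⊢
  by_cases hy : shf (l + 1) (tab l) p a < (tab l).N
  · have : Nat.blt (shf (l + 1) (tab l) p a) (tab l).N = true := by
      rw [Nat.blt_eq]; exact hy
    rw [this, cond_true] at hs ⊢
    rw [ev_shf H l hl b hb X _ hy hs, ev_shf H l hl a ha _ _ hp hy]
  · have : Nat.blt (shf (l + 1) (tab l) p a) (tab l).N = false := by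
      rw [← Bool.not_eq_true, Nat.blt_eq]; exact hy
    rw [this, cond_false] at hs
    omega

theorem LvOK.sB {h : ℕ} {T T' : Lv} (H : LvOK h T T') :
    2 < T.N ∧ T.dn 0 = 0 ∧ T.nx 0 = 0 ∧ T.dn 1 = 1 ∧ T.nx 1 = 1 ∧
      T.dn 2 = (if h = 2 then 1 else 2) ∧ T.nx 2 = (if h = 30 then 2 else 0) := by
  have := H.b
  simp only [chkB, Bool.and_eq_true, Nat.blt_eq, Nat.beq_eq] at this
  obtain ⟨a1, a2, a3, a4, a5, a6, a7⟩ := this
  refine ⟨a1, a2, a3, a4, a5, ?_, ?_⟩
  · rw [a6]
    split_ifs with h2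
    · subst h2; rfl
    · rw [show Nat.beq h 2 = false by rw [← Bool.not_eq_true, Nat.beq_eq]; exact h2]; rfl
  · rw [a7]
    split_ifs with h2
    · subst h2; rfl
    · rw [show Nat.beq h 30 = false by rw [← Bool.not_eq_true, Nat.beq_eq]; exact h2]; rfl

theorem ev_false (H : TabOK tab M) (l : ℕ) (hl : l ≤ M) (X : Multiset ℕ) : ¬ ev tab l 0 X := by
  induction l with
  | zero => exact Nat.zero_ne_one
  | succ l ih =>
    obtain ⟨-, b1, b2, -⟩ := (H.lv l (by omega)).sB
    unfold ev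
    rw [Function.iterate_fixed b2, b1]
    exact ih (by omega)

theorem ev_true (H : TabOK tab M) (l : ℕ) (hl : l ≤ M) (X : Multiset ℕ) : ev tab l 1 X := by
  induction l with
  | zero => rfl
  | succ l ih =>
    obtain ⟨-, -, -, b1, b2, -⟩ := (H.lv l (by omega)).sB
    unfold ev
    rw [Function.iterate_fixed b2, b1]
    exact ih (by omega)

theorem ev_z1 (H : TabOK tab M) (l : ℕ) (hl : l ≤ M) (X : Multiset ℕ) (h : ev tab l 2 X)
    (g : ℕ) (g1 : 2 ≤ g) (g2 : g ≤ l + 1) (g3 : g ≠ 30) : X.count g = 0 := by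
  induction l with
  | zero => omega
  | succ l ih =>
    obtain ⟨-, b1, b2, -, -, b3, b4⟩ := (H.lv l (by omega)).sB
    by_cases h30 : l + 2 = 30
    · rw [if_pos h30] at b4
      rw [if_neg (by omega)] at b3
      unfold ev at h
      rw [Function.iterate_fixed b4, b3] at h
      exact ih (by omega) h (by omega)
    · rw [if_neg h30] at b4
      have h0 : X.count (l + 2) = 0 := by
        by_contra hc
        obtain ⟨Y, rfl⟩ := exists_cons_of_mem (count_pos.1 (Nat.pos_of_ne_zero hc))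
        rw [ev_nx, b4] at h
        exact ev_false H _ hl _ h
      by_cases hg : g = l + 2
      · rw [hg]; exact h0
      · rw [ev_dn _ _ _ _ h0, b3, if_neg (by omega)] at h
        exact ih (by omega) h (by omega)

theorem ev_z2 (H : TabOK tab M) (l : ℕ) (hl : l + 1 ≤ M) (X : Multiset ℕ)
    (h : ∀ g, 2 ≤ g → X.count g = 0) : ev tab (l + 1) 2 X := by
  induction l with
  | zero =>
    obtain ⟨-, -, -, -, -, b3, -⟩ := (H.lv 0 (by omega)).sB
    rw [ev_dn _ _ _ _ (h _ (by omega)), b3]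
    rfl
  | succ l ih =>
    obtain ⟨-, -, -, -, -, b3, -⟩ := (H.lv (l + 1) (by omega)).sB
    rw [ev_dn _ _ _ _ (h _ (by omega)), b3, if_neg (by omega)]
    exact ih (by omega)

theorem LvOK.sD {h : ℕ} {T T' : Lv} (H : LvOK h T T') {a b : ℕ} (ha : a < T.N) (hb : b < T.N)
    (hd : T.dm a b = true) :
    dis T' (T.dn a) (T.dn b) = true ∧ dis T (T.nx a) (T.nx b) = true := by
  have := (allLt_iff _ _).1 H.d a ha
  simp only [frc_eq] at this
  have h2 := allBits_spec _ _ _ this b (by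
    show ((T.dmT >>> (a * T.N)) % 2 ^ T.N).testBit b = true
    rw [Nat.testBit_mod_two_pow, Nat.testBit_shiftRight]
    rw [Lv.dm, tb_eq] at hd
    simpa [hb] using hd)
  simpa only [Bool.and_eq_true] using h2

theorem ev_dis (H : TabOK tab M) (l : ℕ) (hl : l ≤ M) (X : Multiset ℕ) (a b : ℕ)
    (ha : a < (tab l).N) (hb : b < (tab l).N) (hd : dis (tab l) a b = true)
    (ea : ev tab l a X) (eb : ev tab l b X) : False := by
  induction l generalizing X a b with
  | zero =>
    simp only [dis, Bool.or_eq_true, Nat.beq_eq, Lv.dm, tb_eq, H.dm0, Nat.zero_testBit] at hd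
    have e1 : a = 1 := ea
    have e2 : b = 1 := eb
    rcases hd with h | h | h
    · omega
    · omega
    · exact absurd h (by simp)
  | succ l ih =>
    have L := H.lv l (by omega)
    induction X using cnt_ind (l + 2) generalizing a b with
    | h0 X hX =>
      simp only [dis, Bool.or_eq_true, Nat.beq_eq] at hd
      rcases hd with rfl | rfl | hd
      · exact ev_false H _ hl _ ea
      · exact ev_false H _ hl _ eb
      rw [ev_dn _ _ _ _ hX] at ea eb
      exact ih (by omega) X _ _ (L.sS ha).1 (L.sS hb).1 (L.sD ha hb hd).1 ea eb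
    | h1 X ihX =>
      simp only [dis, Bool.or_eq_true, Nat.beq_eq] at hd
      rcases hd with rfl | rfl | hd
      · exact ev_false H _ hl _ ea
      · exact ev_false H _ hl _ eb
      rw [ev_nx] at ea eb
      exact ihX _ _ (L.sS ha).2.1 (L.sS hb).2.1 (L.sD ha hb hd).2 ea eb

/-- internal options -/
def IOpt (h a : ℕ) : Prop := off h ≤ a ∧ a < nopt h

theorem nopt_le (h : ℕ) : nopt h ≤ h / 2 := by
  unfold nopt
  cases Nat.beq h 30
  · exact le_rfl
  · exact Nat.zero_le _

theorem IOpt.le {h a : ℕ} (H : IOpt h a) : 2 * a + 2 ≤ h := by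
  have := H.2
  have := nopt_le h
  omega

theorem LvOK.sI {h : ℕ} {T T' : Lv} (H : LvOK h T T') {r : ℕ} (hr : r < T.N)
    (hi : T.im r = true) : T'.im (T.dn r) = true ∧ T.im (T.nx r) = true ∧ ∀ a, IOpt h a →
      shO (h - 1) T' (T.dn r) a (h - 2 - a) < T'.N ∧
        dis T' (T.dn (T.nx r)) (shO (h - 1) T' (T.dn r) a (h - 2 - a)) = true := by
  have := (allLt_iff _ _).1 H.i r hr
  simp only [frc_eq, hi, Bool.not_true, Bool.false_or, Bool.and_eq_true, allLt_iff,
    Bool.or_eq_true, Nat.blt_eq] at this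
  obtain ⟨h1, h2, h3⟩ := this
  refine ⟨h1, h2, fun a ha => ?_⟩
  rcases h3 a ha.2 with h4 | h4
  · exact absurd ha.1 (by omega)
  · exact h4

theorem ev_ind (H : TabOK tab M) (l : ℕ) (hl : l ≤ M) (g a : ℕ) (hg : g ≤ l + 1) (ho : IOpt g a)
    (Y : Multiset ℕ) (r : ℕ) (hr : r < (tab l).N) (hi : (tab l).im r = true)
    (e1 : ev tab l r (g ::ₘ Y)) (e2 : ev tab l r (a ::ₘ (g - 2 - a) ::ₘ Y)) : False := by
  have hle := ho.le
  induction l generalizing Y r with
  | zero => omega
  | succ l ih =>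
    have L := H.lv l (by omega)
    induction Y using cnt_ind (l + 2) generalizing r with
    | h0 Y hY =>
      obtain ⟨i1, i2, i3⟩ := L.sI hr hi
      have c2 : (a ::ₘ (g - 2 - a) ::ₘ Y).count (l + 2) = 0 := by
        rw [count_cons_of_ne (by omega), count_cons_of_ne (by omega)]; exact hY
      rw [ev_dn _ _ _ _ c2] at e2
      by_cases h2 : g = l + 2
      · subst h2
        obtain ⟨i4, i5⟩ := i3 a ho
        rw [ev_nx, ev_dn _ _ _ _ hY] at e1
        exact ev_dis H l (by omega) Y _ _ (L.sS (L.sS hr).2.1).1 i4 i5 e1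
          ((ev_shO H l (by omega) _ _ _ (by omega) (by omega) (L.sS hr).1 i4 Y).2 e2)
      · rw [ev_dn _ _ _ _ (by rw [count_cons_of_ne (by omega)]; exact hY)] at e1
        exact ih (by omega) (by omega) Y _ (L.sS hr).1 i1 e1 e2
    | h1 Y ihY =>
      obtain ⟨i1, i2, i3⟩ := L.sI hr hi
      rw [cons_swap, ev_nx] at e1
      rw [cons_swap (g - 2 - a), cons_swap a, ev_nx] at e2
      exact ihY _ (L.sS hr).2.1 i2 e1 e2

def InMove (tab : ℕ → Lv) (l r : ℕ) (X : Multiset ℕ) : Prop :=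
  ∃ g a Y, g ≤ l + 1 ∧ IOpt g a ∧ X = g ::ₘ Y ∧ ev tab l r (a ::ₘ (g - 2 - a) ::ₘ Y)

def Cov (tab : ℕ → Lv) (l r p E : ℕ) (X : Multiset ℕ) : Prop :=
  ev tab l r X ∨ (∃ e, e < (tab l).N ∧ E.testBit e = true ∧ ev tab l e X) ∨ InMove tab l r X ∨
    (p ≠ 0 ∧ X.count (l + 1) = 0 ∧ ∃ a, IOpt (l + 1) a ∧
      ev tab (l - 1) (p - 1) (a ::ₘ (l + 1 - 2 - a) ::ₘ X))

theorem rE_lt (T : Lv) (s e : ℕ) (h : (rE (T.rc s)).testBit e = true) : e < T.N := by
  have h2 : (((T.stT >>> (s * (T.N + 44))) % 2 ^ (T.N + 44)) >>> 44).testBit e = true := h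
  rw [Nat.testBit_shiftRight, Nat.testBit_mod_two_pow] at h2
  simp only [Bool.and_eq_true, decide_eq_true_eq] at h2
  omega

theorem tgt_cov (H : TabOK tab M) (l : ℕ) (hl : l ≤ M) (h1 : 1 < (tab l).N) (X : Multiset ℕ)
    (hs : ∀ s < (tab l).ns, Cov tab l (rR ((tab l).rc s)) (rP ((tab l).rc s)) (rE ((tab l).rc s)) X)
    (r p A ptr : ℕ) (ht : tgt (tab l) r p A ptr = true) : Cov tab l r p A X := by
  simp only [tgt, frc_eq, Bool.or_eq_true, Bool.and_eq_true, Nat.beq_eq, Nat.blt_eq, Nat.ble_eq,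
    tb_eq] at ht
  rcases ht with rfl | ht | ⟨t1, t2, t3, t4, t5⟩
  · exact Or.inl (ev_true H l hl X)
  · exact Or.inr (Or.inl ⟨1, h1, ht, ev_true H l hl X⟩)
  · have := hs ptr.pred (by rw [Nat.pred_eq_sub_one]; omega)
    rw [t3, t4] at this
    rcases this with h | ⟨e, e1, e2, e3⟩ | h
    · exact Or.inl h
    · refine Or.inr (Or.inl ⟨e, e1, ?_, e3⟩)
      rw [← t5] at e2
      have e4 : (rE ((tab l).rc ptr.pred) &&& A).testBit e = true := e2
      rw [Nat.testBit_and, Bool.and_eq_true] at e4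
      exact e4.2
    · exact Or.inr (Or.inr h)

theorem ev_cov (H : TabOK tab M) (hN : (tab 0).N = 2) (l : ℕ) (hl : l ≤ M) (X : Multiset ℕ)
    (s : ℕ) (hs : s < (tab l).ns) :
    Cov tab l (rR ((tab l).rc s)) (rP ((tab l).rc s)) (rE ((tab l).rc s)) X := by
  induction l generalizing X s with
  | zero => rw [H.ns0] at hs; omega
  | succ l ih =>
    have L := H.lv l (by omega)
    have hN1 : 1 < (tab l).N := by
      cases l with
      | zero => omega
      | succ l => have := (H.lv l (by omega)).sB.1; omega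
    induction X using cnt_ind (l + 2) generalizing s with
    | h0 X hX =>
      have := (allLt_iff _ _).1 L.c s hs
      simp only [chkC1, frc_eq, Bool.and_eq_true, Nat.blt_eq, Nat.ble_eq] at this
      obtain ⟨c1, c2, c3, -⟩ := this
      rcases tgt_cov H l (by omega) hN1 X (fun s hs => ih (by omega) X s hs) _ _ _ _ c3 with
        h | ⟨e, e1, e2, e3⟩ | ⟨g, a, Y, m1, m2, m3, m4⟩ | h
      · exact Or.inl ((ev_dn _ _ _ _ hX).2 h)
      · have e4 : (mapBits 1024 (tab (l + 1)).dn (rE ((tab (l + 1)).rc s)) |||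
            cond (Nat.beq (rP ((tab (l + 1)).rc s)) 0) 0
              (optMask (l + 2) (tab l) (rP ((tab (l + 1)).rc s)).pred)).testBit e = true := e2
        rw [Nat.testBit_or, Bool.or_eq_true] at e4
        rcases e4 with e4 | e4
        · obtain ⟨b, b1, rfl⟩ := mapBits_spec _ _ _ _ e4
          exact Or.inr (Or.inl ⟨b, rE_lt _ _ _ b1, b1, (ev_dn _ _ _ _ hX).2 e3⟩)
        · cases hp : Nat.beq (rP ((tab (l + 1)).rc s)) 0 with
          | true => rw [hp] at e4; simp at e4
          | false =>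
            rw [hp, cond_false] at e4
            have hp0 : rP ((tab (l + 1)).rc s) ≠ 0 := Nat.ne_of_beq_eq_false hp
            obtain ⟨a, a1, a2⟩ := orLt_bit _ _ _ e4
            cases ha : Nat.blt a (off (l + 2)) with
            | true => rw [ha] at a2; simp at a2
            | false =>
              rw [ha, cond_false] at a2
              have a3 : off (l + 2) ≤ a := by
                rw [← Bool.not_eq_true, Nat.blt_eq] at ha; omega
              have a4 := testBit_bit a2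
              have ho : IOpt (l + 2) a := ⟨a3, a1⟩
              have hle := ho.le
              refine Or.inr (Or.inr (Or.inr ⟨hp0, hX, a, ho, ?_⟩))
              subst a4
              exact (ev_shO H l (by omega) (rP ((tab (l + 1)).rc s) - 1) a (l + 2 - 2 - a)
                (by omega) (by omega) (by omega) e1 X).1 e3
      · refine Or.inr (Or.inr (Or.inl ⟨g, a, Y, by omega, m2, m3, ?_⟩))
        have hle := m2.le
        rw [ev_dn]
        · exact m4
        · rw [m3, count_cons_of_ne (by omega)] at hX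
          rw [count_cons_of_ne (by omega), count_cons_of_ne (by omega)]
          exact hX
      · exact absurd rfl h.1
    | h1 X ihX =>
      have := (allLt_iff _ _).1 L.c s hs
      simp only [chkC1, frc_eq, Bool.and_eq_true, Nat.blt_eq, Nat.ble_eq] at this
      obtain ⟨c1, c2, -, c4⟩ := this
      rcases tgt_cov H (l + 1) hl (by have := L.sB.1; omega) X ihX _ _ _ _ c4 with
        h | ⟨e, e1, e2, e3⟩ | ⟨g, a, Y, m1, m2, m3, m4⟩ | ⟨p1, p2, a, p3, p4⟩
      · exact Or.inl ((ev_nx _ _ _ _).2 h)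
      · obtain ⟨b, b1, rfl⟩ := mapBits_spec _ _ _ _ e2
        exact Or.inr (Or.inl ⟨b, rE_lt _ _ _ b1, b1, (ev_nx _ _ _ _).2 e3⟩)
      · refine Or.inr (Or.inr (Or.inl ⟨g, a, (l + 2) ::ₘ Y, m1, m2, by rw [m3, cons_swap], ?_⟩))
        rw [cons_swap (g - 2 - a), cons_swap a, ev_nx]
        exact m4
      · refine Or.inr (Or.inr (Or.inl ⟨l + 2, a, X, le_rfl, p3, rfl, ?_⟩))
        have hle := p3.le
        have e : nxp (l + 2) ((tab (l + 1)).dn (rR ((tab (l + 1)).rc s))) - 1 =
            (tab (l + 1)).dn (rR ((tab (l + 1)).rc s)) := by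
          unfold nxp at p1 ⊢
          cases hb : Nat.beq (nopt (l + 2)) 0
          · rfl
          · rw [hb] at p1; exact absurd rfl p1
        rw [e] at p4
        rw [ev_dn]
        · exact p4
        · rw [count_cons_of_ne (by omega), count_cons_of_ne (by omega)]
          exact p2

end Pool.Agent.P.MP_900c80_co
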