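import Pool.Agent.P.MP_900c80_co.Ok0
import Pool.Agent.P.MP_900c80_co.Ok1
import Pool.Agent.P.MP_900c80_co.Ok2
import Pool.Agent.P.MP_900c80_co.Ok3
import Pool.Agent.P.MP_900c80_co.Ok4
import Pool.Agent.P.MP_900c80_co.Ok5
import Pool.Agent.P.MP_900c80_co.Ok6
import Pool.Agent.P.MP_900c80_co.Sound

set_option autoImplicit false

namespace Pool.Agent.P.MP_900c80_co

noncomputable def tab : ℕ → Lv
  | 0 => L1
  | 1 => L2
  | 2 => L3
  | 3 => L4
  | 4 => L5
  | 5 => L6
  | 6 => L7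
  | 7 => L8
  | 8 => L9
  | 9 => L10
  | 10 => L11
  | 11 => L12
  | 12 => L13
  | 13 => L14
  | 14 => L15
  | 15 => L16
  | 16 => L17
  | 17 => L18
  | 18 => L19
  | 19 => L20
  | 20 => L21
  | 21 => L22
  | 22 => L23
  | 23 => L24
  | 24 => L25
  | 25 => L26
  | 26 => L27
  | 27 => L28
  | 28 => L29
  | 29 => L30
  | 30 => L31
  | _ => L32

theorem tabOK : TabOK tab 31 where
  lv := by
    intro l hl
    interval_cases l
    · exact ⟨okS2, okB2, okD2, okI2, okC2⟩
    · exact ⟨okS3, okB3, okD3, okI3, okC3⟩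
    · exact ⟨okS4, okB4, okD4, okI4, okC4⟩
    · exact ⟨okS5, okB5, okD5, okI5, okC5⟩
    · exact ⟨okS6, okB6, okD6, okI6, okC6⟩
    · exact ⟨okS7, okB7, okD7, okI7, okC7⟩
    · exact ⟨okS8, okB8, okD8, okI8, okC8⟩
    · exact ⟨okS9, okB9, okD9, okI9, okC9⟩
    · exact ⟨okS10, okB10, okD10, okI10, okC10⟩
    · exact ⟨okS11, okB11, okD11, okI11, okC11⟩
    · exact ⟨okS12, okB12, okD12, okI12, okC12⟩
    · exact ⟨okS13, okB13, okD13, okI13, okC13⟩
    · exact ⟨okS14, okB14, okD14, okI14, okC14⟩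
    · exact ⟨okS15, okB15, okD15, okI15, okC15⟩
    · exact ⟨okS16, okB16, okD16, okI16, okC16⟩
    · exact ⟨okS17, okB17, okD17, okI17, okC17⟩
    · exact ⟨okS18, okB18, okD18, okI18, okC18⟩
    · exact ⟨okS19, okB19, okD19, okI19, okC19⟩
    · exact ⟨okS20, okB20, okD20, okI20, okC20⟩
    · exact ⟨okS21, okB21, okD21, okI21, okC21⟩
    · exact ⟨okS22, okB22, okD22, okI22, okC22⟩
    · exact ⟨okS23, okB23, okD23, okI23, okC23⟩
    · exact ⟨okS24, okB24, okD24, okI24, okC24⟩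
    · exact ⟨okS25, okB25, okD25, okI25, okC25⟩
    · exact ⟨okS26, okB26, okD26, okI26, okC26⟩
    · exact ⟨okS27, okB27, okD27, okI27, okC27⟩
    · exact ⟨okS28, okB28, okD28, okI28, okC28⟩
    · exact ⟨okS29, okB29, okD29, okI29, okC29⟩
    · exact ⟨okS30, okB30, okD30, okI30, okC30⟩
    · exact ⟨okS31, okB31, okD31, okI31, okC31⟩
    · exact ⟨okS32, okB32, okD32, okI32, okC32⟩
  dm0 := rfl
  ns0 := rfl

theorem tab31 : tab 31 = L32 := rfl

def cls (j k : ℕ) : ℕ :=
  if k = 0 then (if j < 2 then j else 2 + j % 2)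
  else if k = 1 then (if j < 2 then 4 + j else 6 + j % 2)
  else if k = 2 ∧ j = 0 then 8
  else if k ≤ j + 1 then 10 - (j + k) % 2
  else if j = 0 ∧ k % 2 = 1 then 11
  else 12 + (j + k) % 2

def un (c : ℕ) : ℕ := [0, 17, 18, 19, 0, 20, 21, 22, 0, 23, 24, 0, 25, 26].getD c 0

def ext30 (T : Lv) (c1 a : ℕ) : ℕ := shO 32 T (c1 + 3) a (28 - a)
def ext34 (T : Lv) (c2 c3 a : ℕ) : ℕ := shO 32 T ((if a = 2 then c3 else c2) + 3) a (32 - a)

def chkTop (T : Lv) (c0 : ℕ) (jp : Bool) (c1 : ℕ) (kp : Bool) (c2 c3 c4 : ℕ) : Bool :=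
  Nat.blt (c0 + 3) T.N && Nat.blt (c1 + 3) T.N && Nat.blt (c2 + 3) T.N && Nat.blt (c3 + 3) T.N &&
  Nat.blt (c4 + 3) T.N && Nat.blt (un c4) T.N &&
  Nat.beq (shf 32 T (c0 + 3) 30) (c0 + 3) && Nat.beq (shf 32 T (c1 + 3) 30) (c1 + 3) &&
  Nat.beq (shf 32 T (c4 + 3) 30) (c4 + 3) &&
  Nat.beq (T.dn (un c4)) 0 && Nat.beq (T.nx (un c4)) (c4 + 3) &&
  T.im (c0 + 3) && dis T (c0 + 3) (un c4) && (jp || kp || dis T (c0 + 3) 2) &&
  (!jp || allLt 15 fun a => frc (ext30 T c1 a) fun y => Nat.blt y T.N && dis T (c0 + 3) y) &&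
  (!kp || allLt 17 fun a => frc (ext34 T c2 c3 a) fun y => Nat.blt y T.N && dis T (c0 + 3) y) &&
  frc (Nat.lor (bit (un c4)) (Nat.lor (cond (jp || kp) 0 (bit 2))
      (Nat.lor (cond jp (orLt 15 fun a => bit (ext30 T c1 a)) 0)
        (cond kp (orLt 17 fun a => bit (ext34 T c2 c3 a)) 0))))
    fun A => !(allLt 51 fun ptr => !(tgt T (c0 + 3) 0 A ptr))

def top (T : Lv) (j k : ℕ) : Bool :=
  chkTop T (cls j k) (Nat.blt 0 j) (cls (j - 1) k) (Nat.blt 0 k) (cls j (k - 1))
    (cls (j + 1) (k - 1)) (cls (j + 1) k)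

theorem top_box : allLt 12 (fun j => allLt 10 fun k => top L32 j k) = true := by decide +kernel

theorem cls_jk (j k : ℕ) (h1 : 1 ≤ j) (h2 : 3 ≤ k) : cls (j + 2) (k + 2) = cls j k := by
  unfold cls
  rw [if_neg (by omega), if_neg (by omega), if_neg (by omega), if_neg (show ¬ k = 0 by omega),
    if_neg (show ¬ k = 1 by omega), if_neg (show ¬ (k = 2 ∧ j = 0) by omega)]
  by_cases h : k ≤ j + 1
  · rw [if_pos (by omega), if_pos h]; omega
  · rw [if_neg (by omega), if_neg (by omega), if_neg h, if_neg (by omega)]; omega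

theorem cls_k (j k : ℕ) (h1 : j + 1 < k) (h2 : 3 ≤ k) : cls j (k + 2) = cls j k := by
  unfold cls
  rw [if_neg (by omega), if_neg (by omega), if_neg (by omega), if_neg (by omega),
    if_neg (show ¬ k = 0 by omega), if_neg (show ¬ k = 1 by omega),
    if_neg (show ¬ (k = 2 ∧ j = 0) by omega), if_neg (show ¬ (k ≤ j + 1) by omega)]
  by_cases h : j = 0 ∧ k % 2 = 1
  · rw [if_pos (by omega), if_pos h]
  · rw [if_neg (by omega), if_neg h]; omega

theorem cls_j (j k : ℕ) (h1 : 2 ≤ j) (h2 : k ≤ j + 1) : cls (j + 2) k = cls j k := by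
  unfold cls
  by_cases h0 : k = 0
  · rw [if_pos h0, if_pos h0, if_neg (by omega), if_neg (by omega)]; omega
  rw [if_neg h0, if_neg h0]
  by_cases h3 : k = 1
  · rw [if_pos h3, if_pos h3, if_neg (by omega), if_neg (by omega)]; omega
  rw [if_neg h3, if_neg h3, if_neg (by omega), if_pos (by omega), if_neg (by omega), if_pos h2]
  omega

theorem blt_pos (n : ℕ) (h : 0 < n) : Nat.blt 0 n = true := by
  rw [Nat.blt_eq]; exact h

theorem top_all (j k : ℕ) : top L32 j k = true := by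
  induction hn : j + k using Nat.strong_induction_on generalizing j k with
  | _ n ih =>
    by_cases c1 : 6 ≤ k ∧ 4 ≤ j
    · obtain ⟨k, rfl⟩ : ∃ k', k = k' + 2 := ⟨k - 2, by omega⟩
      obtain ⟨j, rfl⟩ : ∃ j', j = j' + 2 := ⟨j - 2, by omega⟩
      have := ih (j + k) (by omega) j k rfl
      unfold top at this ⊢
      rw [show j + 2 - 1 = (j - 1) + 2 by omega, show k + 2 - 1 = (k - 1) + 2 by omega,
        show j + 2 + 1 = (j + 1) + 2 by omega, cls_jk j k (by omega) (by omega),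
        cls_jk (j - 1) k (by omega) (by omega), cls_jk j (k - 1) (by omega) (by omega),
        cls_jk (j + 1) (k - 1) (by omega) (by omega), cls_jk (j + 1) k (by omega) (by omega),
        blt_pos (j + 2) (by omega), blt_pos (k + 2) (by omega)]
      rwa [blt_pos j (by omega), blt_pos k (by omega)] at this
    by_cases c2 : 10 ≤ k
    · obtain ⟨k, rfl⟩ : ∃ k', k = k' + 2 := ⟨k - 2, by omega⟩
      have := ih (j + k) (by omega) j k rfl
      unfold top at this ⊢
      rw [show k + 2 - 1 = (k - 1) + 2 by omega, cls_k j k (by omega) (by omega),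
        cls_k (j - 1) k (by omega) (by omega), cls_k j (k - 1) (by omega) (by omega),
        cls_k (j + 1) (k - 1) (by omega) (by omega), cls_k (j + 1) k (by omega) (by omega),
        blt_pos (k + 2) (by omega)]
      rwa [blt_pos k (by omega)] at this
    by_cases c3 : 12 ≤ j
    · obtain ⟨j, rfl⟩ : ∃ j', j = j' + 2 := ⟨j - 2, by omega⟩
      have := ih (j + k) (by omega) j k rfl
      unfold top at this ⊢
      rw [show j + 2 - 1 = (j - 1) + 2 by omega,
        show j + 2 + 1 = (j + 1) + 2 by omega, cls_j j k (by omega) (by omega),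
        cls_j (j - 1) k (by omega) (by omega), cls_j j (k - 1) (by omega) (by omega),
        cls_j (j + 1) (k - 1) (by omega) (by omega), cls_j (j + 1) k (by omega) (by omega),
        blt_pos (j + 2) (by omega)]
      rwa [blt_pos j (by omega)] at this
    exact (allLt_iff _ _).1 ((allLt_iff _ _).1 top_box j (by omega)) k (by omega)

end Pool.Agent.P.MP_900c80_co
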